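import Pool.Agent.Helper57.SJ.Stmts
import Pool.Agent.Helper47.Q2.TL

/-! Row SUP of the sheet SJ: large values of a sum over primes in intervals. -/

set_option autoImplicit false

namespace Pool.Agent.Helper47.SJ

open MeasureTheory Set Filter Topology
open Pool.Agent.Helper57.SJ

lemma sup_E_deriv (p : ℕ) (t : ℝ) :
    HasDerivAt (Pool.Agent.Helper57.QZ.TL47.E p)
      (-((Real.log p : ℝ) : ℂ) * Complex.I * Pool.Agent.Helper57.QZ.TL47.E p t) t := by
  have h1 : HasDerivAt (fun t : ℝ => ((t * Real.log p : ℝ) : ℂ)) ((1 * Real.log p : ℝ) : ℂ) t :=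
    ((hasDerivAt_id t).mul_const (Real.log p)).ofReal_comp
  have h2 := ((h1.mul_const Complex.I).neg).cexp
  have h3 : HasDerivAt (fun t : ℝ => Complex.exp (-((t * Real.log p : ℝ) * Complex.I)))
      (-((Real.log p : ℝ) : ℂ) * Complex.I * Pool.Agent.Helper57.QZ.TL47.E p t) t := by
    refine h2.congr_deriv ?_
    unfold Pool.Agent.Helper57.QZ.TL47.E
    simp only [Pi.neg_apply]
    push_cast
    ring
  exact h3

theorem st_SUP (h1 : ST_MK2) (h2 : ST_SB) : ST_SUP := by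
  intro P a M S B η H T k hP hM hM1 hk hη hH hHT hS hB
  have hT : 0 < T := by linarith
  set a' : ℕ → ℂ := fun p => a p * (-((Real.log p : ℝ) : ℂ) * Complex.I) with ha'
  set f : ℝ → ℂ := fun t => ∑ p ∈ P, a p * Pool.Agent.Helper57.QZ.TL47.E p t with hf
  set f' : ℝ → ℂ := fun t => ∑ p ∈ P, a' p * Pool.Agent.Helper57.QZ.TL47.E p t with hf'
  have hfc : Continuous f :=
    continuous_finsetSum _ fun p _ => continuous_const.mul (Pool.Agent.Helper57.QZ.TL47.E_cont p)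
  have hf'c : Continuous f' :=
    continuous_finsetSum _ fun p _ => continuous_const.mul (Pool.Agent.Helper57.QZ.TL47.E_cont p)
  have hd : ∀ t, HasDerivAt f (f' t) t := by
    intro t
    have h3 : HasDerivAt f (∑ p ∈ P, a p * (-((Real.log p : ℝ) : ℂ) * Complex.I *
        Pool.Agent.Helper57.QZ.TL47.E p t)) t :=
      HasDerivAt.fun_sum fun p _ => (sup_E_deriv p t).const_mul (a p)
    refine h3.congr_deriv ?_
    refine Finset.sum_congr rfl fun p _ => ?_
    rw [ha']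
    ring
  have hlog : ∀ p : ℕ, 0 ≤ Real.log p := fun p => Real.log_natCast_nonneg p
  have hna' : ∀ p, ‖a' p‖ = ‖a p‖ * Real.log p := by
    intro p
    rw [ha']
    simp only [norm_mul, norm_neg, Complex.norm_I, mul_one, Complex.norm_real]
    rw [Real.norm_of_nonneg (hlog p)]
  have hS1 : ∑ p ∈ P, ‖a p‖ ^ 2 ≤ S := by
    refine le_trans (Finset.sum_le_sum fun p _ => ?_) hS
    refine pow_le_pow_left₀ (norm_nonneg _) ?_ 2
    nlinarith [norm_nonneg (a p), hlog p, mul_nonneg (norm_nonneg (a p)) (hlog p)]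
  have hS2 : ∑ p ∈ P, ‖a' p‖ ^ 2 ≤ S := by
    refine le_trans (Finset.sum_le_sum fun p _ => ?_) hS
    refine pow_le_pow_left₀ (norm_nonneg _) ?_ 2
    rw [hna']
    nlinarith [norm_nonneg (a p), hlog p, mul_nonneg (norm_nonneg (a p)) (hlog p)]
  have hB1 : ∑ p ∈ P, ‖a p‖ ≤ B := by
    refine le_trans (Finset.sum_le_sum fun p _ => ?_) hB
    nlinarith [norm_nonneg (a p), hlog p, mul_nonneg (norm_nonneg (a p)) (hlog p)]
  have hB2 : ∑ p ∈ P, ‖a' p‖ ≤ B := by
    refine le_trans (Finset.sum_le_sum fun p _ => ?_) hB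
    rw [hna']
    nlinarith [norm_nonneg (a p), hlog p, mul_nonneg (norm_nonneg (a p)) (hlog p)]
  set V : ℝ := T * (k.factorial * S ^ k) + 2 * M ^ k * B ^ (2 * k) with hV
  have mvV : ∀ c : ℕ → ℂ, ∑ p ∈ P, ‖c p‖ ^ 2 ≤ S → ∑ p ∈ P, ‖c p‖ ≤ B →
      ∫ t in T..(2 * T), ‖∑ p ∈ P, c p * Pool.Agent.Helper57.QZ.TL47.E p t‖ ^ (2 * k) ≤ V := by
    intro c hc1 hc2
    refine (Pool.Agent.Helper57.QZ.TL47.mv P hP M hM hM1 c k T hT).trans ?_
    have g1 : (∑ p ∈ P, ‖c p‖ ^ 2) ^ k ≤ S ^ k :=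
      pow_le_pow_left₀ (Finset.sum_nonneg fun p _ => by positivity) hc1 k
    have g2 : (∑ p ∈ P, ‖c p‖) ^ (2 * k) ≤ B ^ (2 * k) :=
      pow_le_pow_left₀ (Finset.sum_nonneg fun p _ => norm_nonneg _) hc2 _
    rw [hV]
    have g3 : T * (k.factorial * (∑ p ∈ P, ‖c p‖ ^ 2) ^ k) ≤ T * (k.factorial * S ^ k) := by
      gcongr
    have g4 : 2 * M ^ k * (∑ p ∈ P, ‖c p‖) ^ (2 * k) ≤ 2 * M ^ k * B ^ (2 * k) :=
      mul_le_mul_of_nonneg_left g2 (by positivity)
    linarith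
  have m1 := mvV a hS1 hB1
  have m2 := mvV a' hS2 hB2
  set g : ℝ → ℝ := fun t => (2 * k + 1) * (‖f t‖ ^ (2 * k) + ‖f' t‖ ^ (2 * k)) with hg
  have hgc : Continuous g := by
    have c1 : Continuous fun t => ‖f t‖ ^ (2 * k) := hfc.norm.pow _
    have c2 : Continuous fun t => ‖f' t‖ ^ (2 * k) := hf'c.norm.pow _
    exact continuous_const.mul (c1.add c2)
  have hg0 : ∀ t, 0 ≤ g t := by
    intro t
    rw [hg]
    positivity
  have hgi : ∫ t in T..(2 * T), g t ≤ (4 * k + 2) * V := by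
    have c1 : Continuous fun t => ‖f t‖ ^ (2 * k) := hfc.norm.pow _
    have c2 : Continuous fun t => ‖f' t‖ ^ (2 * k) := hf'c.norm.pow _
    rw [hg, intervalIntegral.integral_const_mul,
      intervalIntegral.integral_add (c1.intervalIntegrable _ _) (c2.intervalIntegrable _ _)]
    have : (4 * (k : ℝ) + 2) * V = (2 * k + 1) * (V + V) := by ring
    rw [this]
    exact mul_le_mul_of_nonneg_left (add_le_add m1 m2) (by positivity)
  have hη2 : 0 < η ^ (2 * k) := by positivity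
  obtain ⟨E, hE1, hE2, hE3⟩ := h1 g H (η ^ (2 * k)) T hH hη2 hHT hgc.integrableOn_Icc hg0
  refine ⟨E, hE1, hE2.trans ?_, ?_⟩
  · have g5 : (∫ t in T..(2 * T), g t) / η ^ (2 * k) ≤ (4 * k + 2) * V / η ^ (2 * k) :=
      div_le_div_of_nonneg_right hgi hη2.le
    exact mul_le_mul_of_nonneg_left (by linarith) (by linarith)
  · intro u hu huE t ht
    obtain ⟨_, _, hu3⟩ := hE3 u hu huE
    have g6 := h2 f f' k hk hd hf'c t
    have g7 : ((2 * k + 1 : ℝ)) * ∫ s in t..(t + 1), (‖f s‖ ^ (2 * k) + ‖f' s‖ ^ (2 * k)) =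
        ∫ s in t..(t + 1), g s := by
      rw [hg, intervalIntegral.integral_const_mul]
    rw [g7] at g6
    have g8 : ∫ s in t..(t + 1), g s ≤ ∫ s in (u - 1)..(u + H + 1), g s := by
      refine intervalIntegral.integral_mono_interval (by linarith [ht.1]) (by linarith)
        (by linarith [ht.2]) ?_ (hgc.intervalIntegrable _ _)
      exact Filter.Eventually.of_forall fun s => hg0 s
    have g9 : ‖f t‖ ^ (2 * k) ≤ η ^ (2 * k) := g6.trans (g8.trans hu3)
    exact (pow_le_pow_iff_left₀ (norm_nonneg _) hη.le (by omega)).mp g9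

end Pool.Agent.Helper47.SJ
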